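import Pool.Agent.L5helper57.TW.NF

set_option autoImplicit false

/-!
# Products of towers with varying top entries: all or almost none of the values are free

The number of the problem is `√2 ^ (√2 ^ x)` for `x = √2`.  We consider products
`t ∏ b_j ^ (a ^ (γ_j x))`, with distinct algebraic numbers `γ_j`, and more generally the exponentials
of `F(k) = ∑ e ^ {λ β_i k} P_i(k)`, `k ∈ ℤ`, where `e ^ λ` is algebraic and not a root of unity, the
`β_i` are distinct algebraic numbers and the `P_i` are complex polynomials.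

Proof.  A large set of integers in an interval contains cubes `a + ∑_{i ∈ T} δ_i` (Hilbert).  On a cube
`F` is a sum of multiplicative functions times polynomials; the transcendental characters are treated
by the hyperplane case of the linear subgroup theorem of Waldschmidt and Roy as in the starting file
`GeneralizedTowers` (`TH160.TowP.part1G`, there for multiplicative cubes of integers `n` and middle
entries), the algebraic characters by differences.  For number fields we slice the lattice.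
-/

namespace Pool.Agent.Results.MP_93d8d2_nt.ExponentialPolynomialTowers

open Polynomial

/-- The linear combinations, with algebraic coefficients, of `1` and of logarithms of algebraic
numbers. -/
noncomputable def LogForms : Submodule (algebraicClosure ℚ ℂ) ℂ :=
  Submodule.span (algebraicClosure ℚ ℂ) ({1} ∪ {z : ℂ | IsAlgebraic ℚ (Complex.exp z)})

/-- The numbers `e ^ z` with `z` in `LogForms`, i.e. the numbers `e ^ γ α_1 ^ β_1 ⋯ α_k ^ β_k` with
algebraic `γ`, `α_i ≠ 0`, `β_i`. -/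
def Prods : Set ℂ := {x | ∃ z ∈ LogForms, Complex.exp z = x}

/-- `F(k) = ∑ e ^ {λ β_i k} P_i(k)`. -/
noncomputable def F {m : ℕ} (l : ℂ) (β : Fin m → ℂ) (P : Fin m → ℂ[X]) (k : ℤ) : ℂ :=
  ∑ i, Complex.exp (l * (β i * k)) * (P i).eval (k : ℂ)

/-- The trivial case: `P_i = 0` if `β_i` is irrational, and all coefficients of `P_i` are in
`LogForms` if `β_i` is rational. -/
def Trivial {m : ℕ} (β : Fin m → ℂ) (P : Fin m → ℂ[X]) : Prop :=
  ∀ i, (¬ (∃ r : ℚ, β i = r) → P i = 0) ∧ ((∃ r : ℚ, β i = r) → ∀ j, (P i).coeff j ∈ LogForms)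

theorem V_mul {a z : ℂ} (ha : IsAlgebraic ℚ a) (hz : z ∈ LogForms) : a * z ∈ LogForms :=
  Pool.Agent.H301R2.SSE.Lt_mul ha hz

theorem two_pi (k : ℤ) : (k : ℂ) * (2 * Real.pi * Complex.I) ∈ LogForms := by
  refine Submodule.subset_span (Or.inr ?_)
  change IsAlgebraic ℚ (Complex.exp ((k : ℂ) * (2 * Real.pi * Complex.I)))
  rw [Complex.exp_int_mul_two_pi_mul_I]
  exact isAlgebraic_one

theorem mem_of_prods {z : ℂ} (h : Complex.exp z ∈ Prods) : z ∈ LogForms := by
  obtain ⟨w, hw, hwe⟩ := h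
  rw [Complex.exp_eq_exp_iff_exists_int] at hwe
  obtain ⟨k, hk⟩ := hwe
  have h4 := LogForms.sub_mem hw (two_pi k)
  rwa [hk, add_sub_cancel_right] at h4

theorem mono {ι : Type*} (X : Finset ι) (P Q : ι → Prop) [DecidablePred P] [DecidablePred Q]
    (h : ∀ x, P x → Q x) {c : ℝ} (hc : ((X.filter Q).card : ℝ) ≤ c) :
    ((X.filter P).card : ℝ) ≤ c := by
  refine le_trans ?_ hc
  have : (X.filter P).card ≤ (X.filter Q).card := by
    apply Finset.card_le_card
    intro x hx
    rw [Finset.mem_filter] at hx ⊢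
    exact ⟨hx.1, h x hx.2⟩
  exact_mod_cast this

open Classical in
/-- **Main result.**
(1) For all `m`, `D` there is an `M` such that for all `λ` with `e ^ λ` algebraic and not a root of
unity, all distinct algebraic numbers `β_1, ..., β_m` and all complex polynomials `P_i` of degree
`< D`: in the trivial case all values `F(k)`, `k ∈ ℤ`, are linear forms in `1` and logarithms of
algebraic numbers; otherwise at most `(4 N) ^ (1 - 1 / 2 ^ M)` of any `N` consecutive ones are.
(2) For all `m` there is an `M` such that for all positive real algebraic `a ≠ 1`, all positive real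
`b_1, ..., b_m`, not all equal to `1`, all distinct nonzero real algebraic numbers `γ_1, ..., γ_m`, all
complex `t ≠ 0`, all real algebraic irrational `θ` and all real `η_1, ..., η_n`: the number
`t ∏ b_j ^ (a ^ (γ_j x))`, `x = (k + k' θ + ∑ l_i η_i) / q`, is of the form `e ^ γ ∏ α_i ^ β_i` for at most
`H (2 H + 1) ^ (n + 1) (8 H + 4) ^ (1 - 1 / 2 ^ M)` of the `H (2 H + 1) ^ (n + 2)` tuples
`(q, k, k', l_1, ..., l_n)` of integers with `1 ≤ q ≤ H` and `|k|, |k'|, |l_i| ≤ H`.
(3) If `z` is not a linear form then `e ^ (γ + δ z)` is transcendental for algebraic `γ` and algebraic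
`δ ≠ 0`. -/
theorem result :
    (∀ m D : ℕ, ∃ M : ℕ, ∀ (l : ℂ) (β : Fin m → ℂ) (P : Fin m → ℂ[X]),
      IsAlgebraic ℚ (Complex.exp l) → (∀ r : ℕ, 0 < r → Complex.exp l ^ r ≠ 1) →
      (∀ i, IsAlgebraic ℚ (β i)) → Function.Injective β → (∀ i, (P i).degree < D) →
        (Trivial β P → ∀ k : ℤ, F l β P k ∈ LogForms) ∧
        (¬ Trivial β P → ∀ (A : ℤ) (N : ℕ), 1 ≤ N →
          (((Finset.Ico A (A + N)).filter fun k : ℤ => F l β P k ∈ LogForms).card : ℝ) ≤
            (4 * N : ℝ) ^ (1 - 1 / 2 ^ M : ℝ))) ∧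
    (∀ m : ℕ, ∃ M : ℕ, ∀ (n : ℕ) (a : ℝ) (b γ : Fin m → ℝ) (t : ℂ) (θ : ℝ) (η : Fin n → ℝ),
      0 < a → a ≠ 1 → IsAlgebraic ℚ a → (∀ j, 0 < b j) → (∃ j, b j ≠ 1) →
      (∀ j, IsAlgebraic ℚ (γ j)) → (∀ j, γ j ≠ 0) → Function.Injective γ → t ≠ 0 →
      IsAlgebraic ℚ θ → Irrational θ → ∀ H : ℕ,
        (((Finset.Icc 1 H ×ˢ Finset.Icc (-H : ℤ) H ×ˢ Finset.Icc (-H : ℤ) H ×ˢ
          Fintype.piFinset fun _ : Fin n => Finset.Icc (-H : ℤ) H).filter
            fun s : ℕ × ℤ × ℤ × (Fin n → ℤ) => t * ((∏ j, b j ^ (a ^ (γ j *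
              ((s.2.1 + s.2.2.1 * θ + ∑ i, s.2.2.2 i * η i) / s.1))) : ℝ) : ℂ) ∈ Prods).card : ℝ) ≤
          H * (2 * H + 1) ^ (n + 1) * (8 * H + 4 : ℝ) ^ (1 - 1 / 2 ^ M : ℝ)) ∧
    (∀ z γ δ : ℂ, z ∉ LogForms → IsAlgebraic ℚ γ → IsAlgebraic ℚ δ → δ ≠ 0 →
      Transcendental ℚ (Complex.exp (γ + δ * z))) := by
  refine ⟨?_, ?_, ?_⟩
  · intro m D
    refine ⟨Pool.Agent.L5helper57.TW.MM m D, fun l β P hexp hru hβ hinj hP => ⟨?_, ?_⟩⟩
    · intro h k
      exact Pool.Agent.L5helper57.TW.triv_mem hexp h k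
    · intro h A N hN
      exact Pool.Agent.L5helper57.TW.dich (D := D) hexp hru hβ hinj (by
        intro i k hk
        apply coeff_eq_zero_of_degree_lt
        refine lt_of_lt_of_le (hP i) ?_
        exact_mod_cast hk) h A N hN
  · intro m
    refine ⟨Pool.Agent.L5helper57.TW.MM (m + 1) 1, ?_⟩
    intro n a b γ t θ η ha ha1 haa hb hb1 hγ hγ0 hinj ht hθ hθi H
    obtain ⟨j, hj⟩ := hb1
    have hla : Real.log a ≠ 0 := Pool.Agent.H137R5.Tow.log_ne ha ha1
    have hexp : IsAlgebraic ℚ (Complex.exp ((Real.log a : ℝ) : ℂ)) := by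
      rw [← Complex.ofReal_exp, Real.exp_log ha]
      exact Pool.Agent.H462R2.PiE.alg_ofReal haa
    have hru : ∀ r : ℕ, 0 < r → Complex.exp ((Real.log a : ℝ) : ℂ) ^ r ≠ 1 := by
      intro r hr h
      rw [← Complex.ofReal_exp, Real.exp_log ha] at h
      have h1 : a ^ r = 1 := by exact_mod_cast h
      exact ha1 ((pow_eq_one_iff_of_nonneg ha.le hr.ne').mp h1)
    refine mono _ _ _ ?_ (Pool.Agent.L5helper57.TW.nf_count (l := ((Real.log a : ℝ) : ℂ)) hexp hru
      (γ := fun j => ((γ j : ℝ) : ℂ)) (fun j => Pool.Agent.H462R2.PiE.alg_ofReal (hγ j))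
      (fun j => by exact_mod_cast hγ0 j) (fun i i' h => hinj (Complex.ofReal_injective h))
      (fun j => ((Real.log (b j) : ℝ) : ℂ)) (Complex.log t) j
      (by exact_mod_cast Pool.Agent.H137R5.Tow.log_ne (hb j) hj) ((θ : ℝ) : ℂ)
      (Pool.Agent.H462R2.PiE.alg_ofReal hθ) (by
        intro r h
        exact hθi ⟨r, by exact_mod_cast h.symm⟩) (fun i => ((η i : ℝ) : ℂ)) H)
    intro s hs
    set x : ℝ := (s.2.1 + s.2.2.1 * θ + ∑ i, s.2.2.2 i * η i) / s.1 with hx
    have hval : t * ((∏ j, b j ^ (a ^ (γ j * x)) : ℝ) : ℂ) =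
        Complex.exp (Pool.Agent.L5helper57.TW.NFF ((Real.log a : ℝ) : ℂ)
          (fun j => ((γ j : ℝ) : ℂ)) (fun j => ((Real.log (b j) : ℝ) : ℂ)) (Complex.log t)
          ((s.2.1 + s.2.2.1 * ((θ : ℝ) : ℂ) + ∑ i, s.2.2.2 i * ((η i : ℝ) : ℂ)) / s.1)) := by
      have hxc : ((s.2.1 + s.2.2.1 * ((θ : ℝ) : ℂ) + ∑ i, s.2.2.2 i * ((η i : ℝ) : ℂ)) / s.1 : ℂ) =
          ((x : ℝ) : ℂ) := by
        rw [hx]
        push_cast
        rfl
      rw [hxc]
      unfold Pool.Agent.L5helper57.TW.NFF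
      rw [Complex.exp_add, Complex.exp_log ht, Complex.exp_sum]
      congr 1
      push_cast
      apply Finset.prod_congr rfl
      intro j _
      rw [Real.rpow_def_of_pos (hb j), Real.rpow_def_of_pos ha]
      push_cast
      ring_nf
    rw [hval] at hs
    exact mem_of_prods hs
  · intro z γ δ hz hγ hδ hδ0 halg
    apply hz
    have h1 : γ + δ * z ∈ LogForms := Submodule.subset_span (Or.inr halg)
    have h2 : γ ∈ LogForms := by
      have := V_mul hγ (Submodule.subset_span (Or.inl rfl) : (1 : ℂ) ∈ LogForms)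
      rwa [mul_one] at this
    have h3 : δ * z ∈ LogForms := by
      have := LogForms.sub_mem h1 h2
      rwa [add_sub_cancel_left] at this
    have h4 := V_mul hδ.inv h3
    rwa [← mul_assoc, inv_mul_cancel₀ hδ0, one_mul] at h4

end Pool.Agent.Results.MP_93d8d2_nt.ExponentialPolynomialTowers
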