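import Pool.Agent.L5helper57.TW.Half

set_option autoImplicit false

/-!
# The towers `b ^ (P (a ^ β))` for integer polynomials `P`

The number of the problem is `√2 ^ P(√2 ^ √2)` for `P = X`.  The logarithms of the numbers
`b ^ ((a ^ β) ^ i)`, `i = 0, ..., N`, span a space of dimension at least `N / 2 - 1` over the algebraic
numbers modulo the space of the linear forms in `1` and logarithms of algebraic numbers.  So
`b ^ (P (a ^ β))` is free for all but `(2 H + 1) ^ (N / 2 + 2)` of the `(2 H + 1) ^ (N + 1)` integer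
polynomials `P` of degree at most `N` with coefficients of absolute value at most `H`.

Proof.  Let `f` be transcendental, `v ≠ 0`, `U` a finite-dimensional space over the algebraic numbers,
and `W` the space of the `u` in `U` with `v u` a linear form.  The strong six exponentials theorem says
that `W ∩ f W` has dimension at most two.  So `2 dim W - 2` is at most the dimension of `U + f U`.
-/

namespace Pool.Agent.Results.MP_93d8d2_nt.PolynomialExponents

open Module

/-- The field of algebraic numbers. -/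
noncomputable abbrev Qbar : IntermediateField ℚ ℂ := algebraicClosure ℚ ℂ

/-- The linear combinations, with algebraic coefficients, of `1` and of logarithms of algebraic
numbers. -/
noncomputable def LogForms : Submodule Qbar ℂ :=
  Submodule.span Qbar ({1} ∪ {z : ℂ | IsAlgebraic ℚ (Complex.exp z)})

/-- The numbers `u` such that `v u` is in `LogForms`. -/
noncomputable def Bad (v : ℂ) : Submodule Qbar ℂ :=
  LogForms.comap (LinearMap.mulLeft Qbar v)

/-- A positive real number `t` is free if its logarithm is not in `LogForms`, i.e. if it is not of the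
form `e ^ γ * α₁ ^ β₁ * ... * αₘ ^ βₘ`. -/
def Free (t : ℝ) : Prop := ((Real.log t : ℝ) : ℂ) ∉ LogForms

theorem free_pow {t : ℝ} (h : Free t) (γ δ : ℂ) (hγ : IsAlgebraic ℚ γ) (hδ : IsAlgebraic ℚ δ)
    (hδ0 : δ ≠ 0) : Transcendental ℚ (Complex.exp (γ + δ * ((Real.log t : ℝ) : ℂ))) := by
  intro halg
  apply h
  have h1 : γ + δ * ((Real.log t : ℝ) : ℂ) ∈ Pool.Agent.H301R2.SSE.Lt :=
    Pool.Agent.H301R2.SSE.Lt_log halg
  have h2 := Pool.Agent.H301R2.SSE.Lt.sub_mem h1 (Pool.Agent.H301R2.SSE.Lt_alg hγ)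
  rw [add_sub_cancel_left] at h2
  have h3 := Pool.Agent.H301R2.SSE.Lt_mul hδ.inv h2
  rw [← mul_assoc, inv_mul_cancel₀ hδ0, one_mul] at h3
  exact h3

theorem free_tr {t : ℝ} (ht : 0 < t) (hf : Free t) : Transcendental ℚ t := by
  intro halg
  have h1 := free_pow hf 0 1 isAlgebraic_zero isAlgebraic_one one_ne_zero
  apply h1
  rw [zero_add, one_mul, ← Complex.ofReal_exp, Real.exp_log ht]
  exact Pool.Agent.H462R2.PiE.alg_ofReal halg

open Classical in
/-- **Main result.**
(1) Let `f` be a transcendental complex number, `v ≠ 0` and `U` a finite-dimensional space of complex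
numbers over the algebraic numbers. The space of the `u` in `U` such that `v u` is a linear form in `1`
and logarithms of algebraic numbers has dimension at most `(dim (U + f U) + 2) / 2`; in particular at
most `(N + 4) / 2` if `U` is spanned by `1, f, ..., f ^ N`.
(2) Let `a ≠ 1`, `b ≠ 1` be positive real numbers, `a` algebraic, and `β` a real algebraic irrational
number. For all `N`, `H` at most `(2 H + 1) ^ (⌊N / 2⌋ + 2)` of the `(2 H + 1) ^ (N + 1)` integer
vectors `c` with `|c_i| ≤ H`, `i = 0, ..., N`, are such that `b ^ (∑ c_i (a ^ β) ^ i)` is not free.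
(3) Free positive numbers `t` are transcendental, and so is `e ^ γ t ^ δ` for algebraic `γ` and
algebraic `δ ≠ 0`. -/
theorem result :
    (∀ (v f : ℂ), v ≠ 0 → Transcendental ℚ f →
      (∀ (U : Submodule Qbar ℂ) [FiniteDimensional Qbar U],
        2 * finrank Qbar (U ⊓ Bad v : Submodule Qbar ℂ) ≤
          finrank Qbar (U ⊔ U.map (LinearMap.mulLeft Qbar f) : Submodule Qbar ℂ) + 2) ∧
      ∀ N : ℕ, 2 * finrank Qbar (Submodule.span Qbar (Set.range fun i : Fin (N + 1) => f ^ (i : ℕ)) ⊓
        Bad v : Submodule Qbar ℂ) ≤ N + 4) ∧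
    (∀ a b β : ℝ, 0 < a → a ≠ 1 → IsAlgebraic ℚ a → 0 < b → b ≠ 1 → IsAlgebraic ℚ β → Irrational β →
      ∀ N H : ℕ, ((Fintype.piFinset fun _ : Fin (N + 1) => Finset.Icc (-H : ℤ) H).filter fun c =>
        ¬ Free (b ^ (∑ i : Fin (N + 1), (c i : ℝ) * (a ^ β) ^ (i : ℕ)))).card ≤ (2 * H + 1) ^ (N / 2 + 2)) ∧
    (∀ t : ℝ, 0 < t → Free t → Transcendental ℚ t ∧
      ∀ γ δ : ℂ, IsAlgebraic ℚ γ → IsAlgebraic ℚ δ → δ ≠ 0 →
        Transcendental ℚ (Complex.exp (γ + δ * ((Real.log t : ℝ) : ℂ)))) := by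
  refine ⟨fun v f hv hf => ⟨fun U _ => Pool.Agent.L5helper57.TW.half hv hf U,
    fun N => Pool.Agent.L5helper57.TW.PU_dim hv hf N⟩, ?_,
    fun t ht hf => ⟨free_tr ht hf, free_pow hf⟩⟩
  intro a b β ha ha1 haa hb hb1 hβ hβi N H
  have hl0 : ((Real.log a : ℝ) : ℂ) ≠ 0 := by
    rw [Complex.ofReal_ne_zero]
    exact Pool.Agent.H137R5.Tow.log_ne ha ha1
  have hv0 : ((Real.log b : ℝ) : ℂ) ≠ 0 := by
    rw [Complex.ofReal_ne_zero]
    exact Pool.Agent.H137R5.Tow.log_ne hb hb1
  have hexp : IsAlgebraic ℚ (Complex.exp ((Real.log a : ℝ) : ℂ)) := by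
    rw [← Complex.ofReal_exp, Real.exp_log ha]
    exact Pool.Agent.H462R2.PiE.alg_ofReal haa
  have hz : Transcendental ℚ (((a ^ β : ℝ)) : ℂ) := by
    have h1 := Pool.Agent.L5helper57.TW.gs_cx hl0 hexp (Pool.Agent.H462R2.PiE.alg_ofReal hβ)
      (fun r h => hβi ⟨r, by exact_mod_cast h.symm⟩)
    rw [Real.rpow_def_of_pos ha]
    push_cast
    exact h1
  refine Pool.Agent.L5helper57.TW.count_poly hv0 hz N H _ (fun c hc => ?_)
  rw [Finset.mem_filter, Fintype.mem_piFinset] at hc
  refine ⟨fun i => abs_le.mpr (Finset.mem_Icc.mp (hc.1 i)), ?_⟩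
  have h2 := hc.2
  unfold Free at h2
  rw [not_not, Real.log_rpow hb] at h2
  have h3 : ((Real.log b : ℝ) : ℂ) * ∑ i : Fin (N + 1), (c i : ℂ) * (((a ^ β : ℝ)) : ℂ) ^ (i : ℕ) =
      (((∑ i : Fin (N + 1), (c i : ℝ) * (a ^ β) ^ (i : ℕ)) * Real.log b : ℝ) : ℂ) := by
    push_cast
    ring
  rw [h3]
  exact h2

end Pool.Agent.Results.MP_93d8d2_nt.PolynomialExponents
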