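import Pool.Agent.L5helper57.TW.Tow

set_option autoImplicit false

/-!
# Towers `b ^ (a ^ β)` whose top entry `β` runs through a number field

The number of the problem is `√2 ^ (√2 ^ β)` with `β = √2`.  Let `K ≠ ℚ` be a real number field.  For
100 percent of the `β` in `K`, ordered by the size of numerators and denominator, `b ^ (a ^ β)` is
free (its logarithm is not a linear form in `1` and logarithms of algebraic numbers), in particular
transcendental; the number of exceptions in a lattice box is at most about the square root of the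
number of points of the box.

Proof.  Let `z_i` be nonzero complex numbers such that `z ^ k = ∏ z_i ^ k_i` is transcendental for all
`k ≠ 0` in `ℤ ^ n`.  Among `n + 2` different elements `z ^ k` three are linearly independent over the
algebraic numbers: otherwise, after division by the first one, all the others are polynomials
`a + b T` in a transcendental number `T`, with algebraic coefficients, and a multiplicative relation
between these `n + 1` numbers, which exists since they are in a group of rank `n`, is a relation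
between linear polynomials, so two of them have the same root and their quotient is algebraic.
By the strong six exponentials theorem (helper301, helper335) a nonzero difference `r` occurs at most
`n + 1` times among the `k` with `v z ^ k` a linear form.  For `z_i = a ^ β_i` the theorem of Gelfond
and Schneider gives the hypothesis.
-/

namespace Pool.Agent.Results.MP_93d8d2_nt.TopEntriesNumberField

open scoped Pointwise

/-- linear forms in `1` and logarithms of algebraic numbers, with algebraic coefficients: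
`x = γ + β₁ l₁ + ... + βₘ lₘ` with `γ`, the `βᵢ` and the exponentials of the `lᵢ` algebraic -/
def LogForm (x : ℂ) : Prop :=
  ∃ (m : ℕ) (γ : ℂ) (β l : Fin m → ℂ), IsAlgebraic ℚ γ ∧ (∀ i, IsAlgebraic ℚ (β i)) ∧
    (∀ i, IsAlgebraic ℚ (Complex.exp (l i))) ∧ x = γ + ∑ i, β i * l i

/-- `t` is *free*: its logarithm is not such a form, i.e. `t` is not of the form
`e ^ γ * α₁ ^ β₁ * ... * αₘ ^ βₘ` -/
def Free (t : ℝ) : Prop := ¬ LogForm ((Real.log t : ℝ) : ℂ)

theorem mem_of_logForm {z : ℂ} (h : LogForm z) : z ∈ Pool.Agent.H301R2.SSE.Lt := by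
  obtain ⟨m, γ, β, l, hγ, hβ, hl, rfl⟩ := h
  exact Submodule.add_mem _ (Pool.Agent.H301R2.SSE.Lt_alg hγ) (Submodule.sum_mem _ fun i _ =>
    Pool.Agent.H301R2.SSE.Lt_mul (hβ i) (Pool.Agent.H301R2.SSE.Lt_log (hl i)))

theorem bad_of {t : ℝ} (h : ¬ Free t) : Pool.Agent.H137R5.Tow.Bad t := by
  unfold Free at h
  rw [not_not] at h
  exact mem_of_logForm h

theorem free_pow {t : ℝ} (h : Free t) (γ δ : ℂ) (hγ : IsAlgebraic ℚ γ) (hδ : IsAlgebraic ℚ δ)
    (hδ0 : δ ≠ 0) : Transcendental ℚ (Complex.exp (γ + δ * ((Real.log t : ℝ) : ℂ))) := by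
  intro hcon
  refine h ⟨1, -γ / δ, fun _ => 1 / δ, fun _ => γ + δ * ((Real.log t : ℝ) : ℂ), ?_, ?_, ?_, ?_⟩
  · exact hγ.neg.mul hδ.inv
  · intro _
    exact isAlgebraic_one.mul hδ.inv
  · intro _
    exact hcon
  · rw [Fin.sum_univ_one]
    field_simp
    ring

theorem free_tr {t : ℝ} (ht : 0 < t) (hf : Free t) : Transcendental ℚ t := by
  intro halg
  have h1 := free_pow hf 0 1 isAlgebraic_zero isAlgebraic_one one_ne_zero
  apply h1
  rw [zero_add, one_mul, ← Complex.ofReal_exp, Real.exp_log ht]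
  exact Pool.Agent.H462R2.PiE.alg_ofReal halg

theorem mono {ι : Type*} (X : Finset ι) (P Q : ι → Prop) [DecidablePred P] [DecidablePred Q] (h : ∀ x, P x → Q x) {c : ℝ}
    (hc : ((X.filter Q).card : ℝ) ≤ c) : ((X.filter P).card : ℝ) ≤ c := by
  refine le_trans ?_ hc
  have : (X.filter P).card ≤ (X.filter Q).card := by
    apply Finset.card_le_card
    intro x hx
    rw [Finset.mem_filter] at hx ⊢
    exact ⟨hx.1, h x hx.2⟩
  exact_mod_cast this

theorem ind_cx {n : ℕ} {β : Fin n → ℝ} (hind : ∀ k : Fin n → ℤ, k ≠ 0 → Irrational (∑ i, k i * β i))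
    (k : Fin n → ℤ) (hk : k ≠ 0) (q : ℚ) : ∑ i, (k i : ℂ) * ((β i : ℝ) : ℂ) ≠ q := by
  intro h
  apply hind k hk
  refine ⟨q, ?_⟩
  have h1 : (((∑ i, (k i : ℝ) * β i : ℝ)) : ℂ) = ((q : ℝ) : ℂ) := by
    push_cast
    exact h
  exact_mod_cast h1.symm

open Classical in
/-- **Main result.**
(1) Let `z_1, ..., z_n`, `v` be nonzero complex numbers such that `z ^ k = ∏ z_i ^ k_i` is
transcendental for all `k ≠ 0` in `ℤ ^ n`.  For every finite `X ⊆ ℤ ^ n` at most
`√((n + 1) |X - X|) + 1` of the `v z ^ k`, `k ∈ X`, are linear forms in `1` and logarithms of algebraic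
numbers; for `r ≠ 0` both `v z ^ k` and `v z ^ (k + r)` are such forms for at most `n + 1` of the `k`.
(2) Let `a ≠ 1`, `b ≠ 1` be positive real numbers, `a` algebraic, and let `β_1, ..., β_n` be real
algebraic numbers such that `1, β_1, ..., β_n` are linearly independent over `ℚ`.  For every function
`ρ : ℤ ^ n → ℚ`, the number `b ^ (a ^ (ρ(k) + ∑ k_i β_i))` is free for all but at most
`√((n + 1) |X - X|) + 1` of the `k ∈ X`, and for all but at most `√((n + 1) (2 N) ^ n) + 1` of the
`N ^ n` points `k` with `A_i ≤ k_i < A_i + N`.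
(3) For `a`, `b`, `β_i` as in (2) the number `b ^ (a ^ ((k_0 + ∑ k_i β_i) / m))` is free for all but at
most `H (2 H + 1) (√((n + 1) (4 H + 2) ^ n) + 1)` of the `H (2 H + 1) ^ (n + 1)` tuples
`(m, k_0, ..., k_n)` of integers with `1 ≤ m ≤ H`, `|k_i| ≤ H`.
(4) Free positive numbers `t` are transcendental, and so is `e ^ γ t ^ δ` for algebraic `γ` and
algebraic `δ ≠ 0`. -/
theorem result :
    (∀ (n : ℕ) (z : Fin n → ℂ) (v : ℂ), (∀ i, z i ≠ 0) → v ≠ 0 →
      (∀ k : Fin n → ℤ, k ≠ 0 → Transcendental ℚ (∏ i, z i ^ k i)) → ∀ X : Finset (Fin n → ℤ),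
        ((X.filter fun k => LogForm (v * ∏ i, z i ^ k i)).card : ℝ) ≤
          Real.sqrt ((n + 1) * ((X - X).card : ℝ)) + 1 ∧
        ∀ r : Fin n → ℤ, r ≠ 0 → (X.filter fun k => LogForm (v * ∏ i, z i ^ k i) ∧
          LogForm (v * ∏ i, z i ^ (k + r) i)).card ≤ n + 1) ∧
    (∀ (n : ℕ) (a b : ℝ) (β : Fin n → ℝ), 0 < a → a ≠ 1 → IsAlgebraic ℚ a → 0 < b → b ≠ 1 →
      (∀ i, IsAlgebraic ℚ (β i)) → (∀ k : Fin n → ℤ, k ≠ 0 → Irrational (∑ i, k i * β i)) →
      (∀ ρ : (Fin n → ℤ) → ℚ,
        (∀ X : Finset (Fin n → ℤ),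
          ((X.filter fun k => ¬ Free (b ^ (a ^ ((ρ k : ℝ) + ∑ i, k i * β i)))).card : ℝ) ≤
            Real.sqrt ((n + 1) * ((X - X).card : ℝ)) + 1) ∧
        (∀ (A : Fin n → ℤ) (N : ℕ),
          (((Fintype.piFinset fun i => Finset.Ico (A i) (A i + N)).filter
            fun k => ¬ Free (b ^ (a ^ ((ρ k : ℝ) + ∑ i, k i * β i)))).card : ℝ) ≤
            Real.sqrt ((n + 1) * (2 * N) ^ n) + 1)) ∧
      (∀ H : ℕ, (((Finset.Icc 1 H ×ˢ Finset.Icc (-H : ℤ) H ×ˢ
          Fintype.piFinset fun _ : Fin n => Finset.Icc (-H : ℤ) H).filter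
            fun t => ¬ Free (b ^ (a ^ ((t.2.1 + ∑ i, t.2.2 i * β i) / t.1)))).card : ℝ) ≤
          H * (2 * H + 1) * (Real.sqrt ((n + 1) * (4 * H + 2) ^ n) + 1))) ∧
    (∀ t : ℝ, 0 < t → Free t → Transcendental ℚ t ∧
      ∀ γ δ : ℂ, IsAlgebraic ℚ γ → IsAlgebraic ℚ δ → δ ≠ 0 →
        Transcendental ℚ (Complex.exp (γ + δ * ((Real.log t : ℝ) : ℂ)))) := by
  refine ⟨?_, ?_, fun t ht hf => ⟨free_tr ht hf, free_pow hf⟩⟩
  · intro n z v hz hv htr X
    refine ⟨?_, ?_⟩
    · exact mono X _ _ (fun k hk => mem_of_logForm hk)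
        (Pool.Agent.L5helper57.TW.count_mon hz htr hv X)
    · intro r hr
      refine Pool.Agent.L5helper57.TW.diff_le hz htr hv r hr _ ?_ ?_
      · intro k hk
        exact mem_of_logForm (Finset.mem_filter.mp hk).2.1
      · intro k hk
        exact mem_of_logForm (Finset.mem_filter.mp hk).2.2
  · intro n a b β ha ha1 haa hb hb1 hβ hind
    have hl0 : ((Real.log a : ℝ) : ℂ) ≠ 0 := by
      rw [Complex.ofReal_ne_zero]
      exact Pool.Agent.H137R5.Tow.log_ne ha ha1
    have hv0 : ((Real.log b : ℝ) : ℂ) ≠ 0 := by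
      rw [Complex.ofReal_ne_zero]
      exact Pool.Agent.H137R5.Tow.log_ne hb hb1
    have hexp : IsAlgebraic ℚ (Complex.exp ((Real.log a : ℝ) : ℂ)) := by
      rw [← Complex.ofReal_exp, Real.exp_log ha]
      exact Pool.Agent.H462R2.PiE.alg_ofReal haa
    have hβ' : ∀ i, IsAlgebraic ℚ ((β i : ℝ) : ℂ) := fun i =>
      Pool.Agent.H462R2.PiE.alg_ofReal (hβ i)
    have hbad : ∀ (ρ : (Fin n → ℤ) → ℚ) (k : Fin n → ℤ),
        ¬ Free (b ^ (a ^ ((ρ k : ℝ) + ∑ i, k i * β i))) →
        ((Real.log b : ℝ) : ℂ) * Complex.exp (((Real.log a : ℝ) : ℂ) *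
          (ρ k + ∑ i, (k i : ℂ) * ((β i : ℝ) : ℂ))) ∈ Pool.Agent.H301R2.SSE.Lt := by
      intro ρ k hk
      have h1 := Pool.Agent.L5helper57.TW.bad_tow ha hb (bad_of hk)
      push_cast at h1
      exact h1
    refine ⟨fun ρ => ⟨?_, ?_⟩, ?_⟩
    · intro X
      exact mono X _ _ (hbad ρ)
        (Pool.Agent.L5helper57.TW.count_tow hl0 hexp hv0 _ hβ' (ind_cx hind) ρ X)
    · intro A N
      exact mono _ _ _ (hbad ρ)
        (Pool.Agent.L5helper57.TW.count_box hl0 hexp hv0 _ hβ' (ind_cx hind) ρ A N)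
    · intro H
      have hfib : ∀ m ∈ Finset.Icc 1 H, ∀ k0 ∈ Finset.Icc (-H : ℤ) H,
          (((Fintype.piFinset fun _ : Fin n => Finset.Icc (-H : ℤ) H).filter
            fun k => ¬ Free (b ^ (a ^ (((k0 : ℝ) + ∑ i, k i * β i) / (m : ℝ))))).card : ℝ) ≤
          Real.sqrt ((n + 1) * (4 * H + 2) ^ n) + 1 := by
        intro m hm k0 _
        have hm0 : (m : ℝ) ≠ 0 := by
          have := (Finset.mem_Icc.mp hm).1
          have : m ≠ 0 := by omega
          exact_mod_cast this
        have hind' : ∀ k : Fin n → ℤ, k ≠ 0 → Irrational (∑ i, k i * (β i / m)) := by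
          intro k hk
          have h1 : ∑ i, (k i : ℝ) * (β i / m) = (∑ i, k i * β i) / (m : ℝ) := by
            rw [Finset.sum_div]
            apply Finset.sum_congr rfl
            intro i _
            ring
          rw [h1]
          have hm1 : m ≠ 0 := by exact_mod_cast hm0
          exact (hind k hk).div_natCast hm1
        have hβ2 : ∀ i, IsAlgebraic ℚ (((β i / m : ℝ)) : ℂ) := by
          intro i
          push_cast
          exact (hβ' i).mul (isAlgebraic_natCast m).inv
        have h1 := Pool.Agent.L5helper57.TW.count_box hl0 hexp hv0 (fun i => ((β i / m : ℝ) : ℂ))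
          hβ2 (ind_cx hind') (fun _ => (k0 : ℚ) / m) (fun _ => -H) (2 * H + 1)
        have hset : (Fintype.piFinset fun _ : Fin n => Finset.Icc (-H : ℤ) H) =
            Pool.Agent.L5helper57.TW.box (fun _ : Fin n => (-H : ℤ)) (2 * H + 1) := by
          unfold Pool.Agent.L5helper57.TW.box
          congr 1
          funext i
          ext x
          rw [Finset.mem_Icc, Finset.mem_Ico]
          push_cast
          omega
        rw [hset]
        refine mono _ _ _ ?_ (h1.trans_eq ?_)
        · intro k hk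
          have h2 := Pool.Agent.L5helper57.TW.bad_tow ha hb (bad_of hk)
          convert h2 using 4
          push_cast
          rw [add_div, Finset.sum_div]
          congr 1
          apply Finset.sum_congr rfl
          intro i _
          ring
        · push_cast
          ring_nf
      have hsum : (((Finset.Icc 1 H ×ˢ Finset.Icc (-H : ℤ) H ×ˢ
          Fintype.piFinset fun _ : Fin n => Finset.Icc (-H : ℤ) H).filter
            fun t => ¬ Free (b ^ (a ^ ((t.2.1 + ∑ i, t.2.2 i * β i) / t.1)))).card : ℝ) =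
          ∑ m ∈ Finset.Icc 1 H, ∑ k0 ∈ Finset.Icc (-H : ℤ) H,
            (((Fintype.piFinset fun _ : Fin n => Finset.Icc (-H : ℤ) H).filter
            fun k => ¬ Free (b ^ (a ^ (((k0 : ℝ) + ∑ i, k i * β i) / (m : ℝ))))).card : ℝ) := by
        simp only [Finset.card_filter, Finset.sum_product, Nat.cast_sum]
      rw [hsum]
      refine (Finset.sum_le_sum fun m hm => Finset.sum_le_sum fun k0 hk0 => hfib m hm k0 hk0).trans ?_
      rw [Finset.sum_const, Finset.sum_const, Nat.card_Icc, Int.card_Icc, nsmul_eq_mul,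
        nsmul_eq_mul, ← mul_assoc]
      apply le_of_eq
      congr 1
      have h1 : (((H : ℤ) + 1 - -H).toNat : ℝ) = 2 * H + 1 := by
        have : ((H : ℤ) + 1 - -H).toNat = 2 * H + 1 := by omega
        rw [this]
        push_cast
        ring
      rw [h1]
      simp

end Pool.Agent.Results.MP_93d8d2_nt.TopEntriesNumberField
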