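import Pool.Agent.L5helper73.GS.D
import Pool.Agent.L5helper73.GS.T

/-!
# Towers of all heights, with infinitely many bases and infinitely many algebraic top entries

Let `a_0, a_1, a_2, …` be multiplicatively independent positive real numbers (their logarithms are linearly independent
over `ℚ`), for instance `a_0 = √2`, `a_1 = √3`, `a_2 = √5`, …; they need not be algebraic. For a word `w = i_1 … i_h` and a
number `x` let `a_w(x)` be the tower `a_(i_1) ^ (a_(i_2) ^ ⋯ ^ (a_(i_h) ^ x))`. The number of the problem is `a_w(√2)` for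
`w = 00`, `a_0 = √2`. For algebraic `x ∉ ℚ` and algebraic `a_i` all towers of height `h ≥ 1` should be algebraically
independent, by Schanuel's conjecture.

We choose one after the other top entries `x_0, x_1, x_2, …`: at the step `k` a number field `F_k` of degree at most `m_k` in
`ℂ`, a large number `T_k` (above a threshold, `T_0 ≤ T_1 ≤ …`) and a disc of radius `T_k ^ (-δ_k)` around a point of a
compact set `L_k` are given, and `x_k` may be any element of `F_k` in this disc of height at most `T_k`, **with at most `C_k`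
exceptions**, which depend on the numbers chosen before; `C_k` does not depend on `F_k` and `T_k`. Then **all towers of all
heights `≤ ψ(k) + 1` with bases `a_0, …, a_ψ(k)`** and the top entry `x_k`, for all `k` together, are algebraically
independent in growing degree and height, relative to the first terms of an arbitrary sequence of complex numbers and to all
the towers with the smaller top entries. In particular no such tower is a root of a nonzero polynomial of small degree and
height. The starting theorems and the other theorems on this page concern the transcendence of single towers, for all but few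
top or middle entries.

Proof. By Ax's theorem (the functional version of Schanuel's conjecture, starting files `Y776.Cv`, `R349`) and induction on
the height the towers of height `≤ h` are algebraically independent functions of the top entry. The determinant method
(`R349.mainL`) and an induction over blocks of variables (`L5helper73/GS`) give the theorem.
-/

set_option autoImplicit false

open NumberField
open Pool.Agent

namespace Pool.Agent.Results.MP_93d8d2_nt.TowersOfAllHeights

/-- The tower `a_(i_1) ^ (a_(i_2) ^ ⋯ ^ (a_(i_h) ^ z))` for the word `w = i_1, …, i_h`. -/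
noncomputable def tower (a : ℕ → ℝ) {n : ℕ} : List (Fin n) → ℂ → ℂ
  | [], z => z
  | i :: w, z => (a i : ℂ) ^ tower a w z

/-- The nonempty words of length at most `n + 1` in the letters `0, …, n`. -/
abbrev Word (n : ℕ) : Type := {w : List (Fin (n + 1)) // w ≠ [] ∧ w.length ≤ n + 1}

/-- The element `x` of `F` is a quotient of integers all of whose conjugates have absolute value at most `T`. -/
def HeightLe (F : Type) [Field F] [NumberField F] (T : ℝ) (x : F) : Prop :=
  ∃ a b : 𝓞 F, b ≠ 0 ∧ (∀ φ : F →+* ℂ, ‖φ a‖ ≤ T ∧ ‖φ b‖ ≤ T) ∧ x = a / b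

/-- The indices of the numbers: natural numbers (for the constants), and pairs of a natural number `k` and a word. -/
abbrev Ind (ψ : ℕ → ℕ) : Type := ℕ ⊕ Σ k : ℕ, Word (ψ k)

/-- The numbers: the constants `c_0, c_1, …` and the towers `a_w(z_k)`. -/
noncomputable def numbers (ψ : ℕ → ℕ) (a : ℕ → ℝ) (c z : ℕ → ℂ) : Ind ψ → ℂ :=
  Sum.elim c fun q => tower a q.2.1 (z q.1)

/-- Independence from level `k` on: every polynomial `P` in the numbers, with integral coefficients of absolute value at
most `H` and of degree at most `ψ(k)` in each of the (arbitrarily many) variables, in which only the constants `c_i`,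
`i < ψ(k)`, occur, and which vanishes at the numbers, still vanishes if the towers with the top entries `z_l`, `l ≥ k`, are
replaced by arbitrary complex numbers. -/
def Independent (ψ : ℕ → ℕ) (a : ℕ → ℝ) (c z : ℕ → ℂ) (k : ℕ) (H : ℝ) : Prop :=
  ∀ P : MvPolynomial (Ind ψ) ℤ, (∀ v, P.degreeOf v ≤ ψ k) → (∀ s, |((P.coeff s : ℤ) : ℝ)| ≤ H) →
    (∀ i, Sum.inl i ∈ P.vars → i < ψ k) → MvPolynomial.aeval (numbers ψ a c z) P = 0 →
    ∀ y : Ind ψ → ℂ, (∀ i, y (Sum.inl i) = c i) → (∀ q, q.1 < k → y (Sum.inr q) = numbers ψ a c z (Sum.inr q)) →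
      MvPolynomial.aeval y P = 0

open Pool.Agent.L5helper73.GS

theorem tower_eq {a : ℕ → ℝ} (ha : ∀ i, 0 < a i) {n : ℕ} (w : List (Fin n)) (z : ℂ) :
    tower a w z = tow (fun i : Fin n => ((Real.log (a i) : ℝ) : ℂ)) w z := by
  induction w with
  | nil => rfl
  | cons i w ih =>
    rw [tower, tow, ih, Complex.cpow_def_of_ne_zero (by exact_mod_cast (ha i).ne'), Complex.ofReal_log (ha i).le]

theorem linInd {a : ℕ → ℝ} (hi : LinearIndependent ℚ fun i => Real.log (a i)) (n : ℕ) :
    LinearIndependent ℚ (fun i : Fin n => ((Real.log (a i) : ℝ) : ℂ)) := by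
  have h1 := hi.comp (fun i : Fin n => (i : ℕ)) Fin.val_injective
  exact h1.map' ((Complex.ofRealCLM : ℝ →L[ℝ] ℂ).toLinearMap.restrictScalars ℚ)
    (LinearMap.ker_eq_bot.2 Complex.ofReal_injective)

/-- Let `a_0, a_1, …` be multiplicatively independent positive real numbers, `L_k` compact sets of complex numbers, `ψ` an
increasing function, `m_k` any numbers and `δ_k > 0`. There are numbers `C_k` and thresholds `θ_k` such that for all number
fields `F_k ⊂ ℂ` of degree at most `m_k`, all `T_0 ≤ T_1 ≤ …`, `T_k ≥ θ_k`, all points `t_k` of `L_k` and all complex numbers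
`c_0, c_1, …` there are sets `E_k(x)` of at most `C_k` elements of `F_k`, where `E_k(x)` only depends on
`x_0, …, x_(k-1)`, such that for all sequences of elements `x_l` of `F_l` and all `k` with `|x_l - t_l| ≤ T_l ^ (-δ_l)`,
height of `x_l` at most `T_l` and `x_l ∉ E_l(x)` for all `l ≥ k`: the towers `a_w(x_l)`, `l ≥ k`, for all words `w` of length
`≤ ψ(l) + 1` in the letters `≤ ψ(l)`, are independent in degree `≤ ψ(k)` and height `≤ T_k ^ ψ(k)` relative to the constants
and all the towers with `l < k`. -/
theorem result (a : ℕ → ℝ) (ha : ∀ i, 0 < a i) (hi : LinearIndependent ℚ fun i => Real.log (a i))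
    (L : ℕ → Set ℂ) (hL : ∀ k, IsCompact (L k)) (ψ : ℕ → ℕ) (hψ : Monotone ψ) (m : ℕ → ℕ) (δ : ℕ → ℝ)
    (hδ : ∀ k, 0 < δ k) :
    ∃ (C : ℕ → ℕ) (θ : ℕ → ℝ), ∀ (F : ℕ → Type) [∀ k, Field (F k)] [∀ k, NumberField (F k)],
      (∀ k, Module.finrank ℚ (F k) ≤ m k) → ∀ (ι : ∀ k, F k →+* ℂ) (T : ℕ → ℝ) (t c : ℕ → ℂ), Monotone T →
      (∀ k, θ k ≤ T k ∧ t k ∈ L k) →
      ∃ E : ∀ k, (∀ i, F i) → Finset (F k), (∀ k x, (E k x).card ≤ C k) ∧
        (∀ k (x x' : ∀ i, F i), (∀ i < k, x i = x' i) → E k x = E k x') ∧
        ∀ (x : ∀ i, F i) (k : ℕ), (∀ l, k ≤ l → ‖ι l (x l) - t l‖ ≤ T l ^ (-δ l) ∧ HeightLe (F l) (T l) (x l) ∧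
            x l ∉ E l x) →
          Independent ψ a c (fun l => ι l (x l)) k (T k ^ ψ k) := by
  classical
  have : ∀ j, Fintype (Word (ψ j)) := fun j => Fintype.ofFinite (Wd (Fin (ψ j + 1)) (ψ j + 1))
  have heq : ∀ (j : ℕ) (w : Word (ψ j)), (fun z : ℂ => tower a w.1 z) =
      fun z => tow (fun i : Fin (ψ j + 1) => ((Real.log (a i) : ℝ) : ℂ)) w.1 z :=
    fun j w => funext fun z => tower_eq ha w.1 z
  obtain ⟨C, θ, hθ, H⟩ := seqF (κ := fun j => Word (ψ j)) (κ' := fun j => Word (ψ j))
    (fun j w z => tower a w.1 z) (fun j w => w) (fun j => fun _ _ h => h) L hL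
    (fun j w t ht => by
      rw [heq j w]
      exact tow_an _ w.1 t (Set.mem_univ _))
    (fun j t ht => by
      have h1 := tow_loc (linInd hi (ψ j + 1)) (ψ j + 1) t
      have h2 : (fun (w : Word (ψ j)) z => tower a w.1 z) =
          fun w z => tow (fun i : Fin (ψ j + 1) => ((Real.log (a i) : ℝ) : ℂ)) w.1 z := funext (heq j)
      rw [h2]
      exact h1) ψ hψ m δ hδ
  refine ⟨C, θ, fun F _ _ hF ι T t c hT hTt => ?_⟩
  obtain ⟨E, hE1, hE2, hE3⟩ := H F hF ι T t c hT hTt
  refine ⟨E, hE1, hE2, fun x k hx P hPd hPh hPc h0 y hy1 hy2 => ?_⟩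
  refine hE3 x k (fun l hl => ?_) P ⟨⟨fun s hs v => ?_, hPh⟩, hPc, fun q _ _ => ⟨q.2, rfl⟩⟩ h0 y hy1 hy2
  · obtain ⟨h1, ⟨a', b', hb', hab, hxab⟩, h3⟩ := hx l hl
    have hT0 : 0 ≤ T l := by
      have := (hθ l).trans (hTt l).1
      linarith
    exact ⟨h1, ⟨a', b', hb', Y120.house_le (F l) hT0 fun φ => (hab φ).1, Y120.house_le (F l) hT0 fun φ => (hab φ).2,
      hxab⟩, h3⟩
  · exact (MvPolynomial.monomial_le_degreeOf v (MvPolynomial.mem_support_iff.2 hs)).trans (hPd v)

end Pool.Agent.Results.MP_93d8d2_nt.TowersOfAllHeights
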